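import Mathlib
import Pool.Agent.MP_4ec7af_co.Defs
import Pool.Agent.MP_4ec7af_co.Proof

set_option autoImplicit false

open Pool.Agent.MP_4ec7af_co

namespace Pool.Agent.Results.MP_4ec7af_co.CycleIRGraph

/-- The cycle `C_16` is an `IR`-graph: there is a simple graph `G` on 13 vertices whose `IR`-graph
is isomorphic to `C_16`. In particular it is not true that no cycle `C_n` with `n ≥ 5` is an
`IR`-graph. -/
theorem result : ∃ G : SimpleGraph (Fin 13),
    Nonempty (irGraph G ≃g SimpleGraph.cycleGraph 16) :=
  ⟨H, cycle_iso⟩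

end Pool.Agent.Results.MP_4ec7af_co.CycleIRGraph
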